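import Pool.Agent.helper17.MLG.Spec

/-!
# MP_84f457_gt, project mlg: row DFF
-/

set_option autoImplicit false

namespace Pool.Agent.MLG

open MeasureTheory Set Filter Topology Module
open scoped ENNReal ContDiff

theorem DFF_conv (g : ℝ → ℝ) (hg : ConvexOn ℝ (Ioi 0) g) (x : ℝ) (hx : 0 < x)
    (hc : ContinuousWithinAt (fun y => derivWithin g (Ioi y) y) (Ioi 0) x) : DifferentiableAt ℝ g x := by
  have hint : ∀ y : ℝ, 0 < y → y ∈ interior (Ioi (0 : ℝ)) := by
    intro y hy
    rw [interior_Ioi]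
    exact hy
  have h1 : derivWithin g (Iio x) x ≤ derivWithin g (Ioi x) x :=
    hg.leftDeriv_le_rightDeriv_of_mem_interior (hint x hx)
  have hcc : ContinuousAt (fun y => derivWithin g (Ioi y) y) x :=
    hc.continuousAt (Ioi_mem_nhds hx)
  have h2 : derivWithin g (Ioi x) x ≤ derivWithin g (Iio x) x := by
    have ht : Tendsto (fun y => derivWithin g (Ioi y) y) (𝓝[<] x) (𝓝 (derivWithin g (Ioi x) x)) :=
      hcc.tendsto.mono_left nhdsWithin_le_nhds
    refine le_of_tendsto ht ?_
    have hm : Ioo 0 x ∈ 𝓝[<] x := Ioo_mem_nhdsLT hx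
    filter_upwards [hm] with y hy
    exact (hg.rightDeriv_le_slope_of_mem_interior (hint y hy.1) (mem_Ioi.2 hx) hy.2).trans
      (hg.slope_le_leftDeriv_of_mem_interior (mem_Ioi.2 hy.1) (hint x hx) hy.2)
  have h3 := le_antisymm h1 h2
  have hL := hg.hasDerivWithinAt_leftDeriv_of_mem_interior (hint x hx)
  have hR := hg.hasDerivWithinAt_rightDeriv_of_mem_interior (hint x hx)
  rw [h3] at hL
  have hU := hL.union hR
  have hset : Iio x ∪ Ioi x = {x}ᶜ := by
    ext y
    simp
  rw [hset] at hU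
  have : HasDerivAt g (derivWithin g (Ioi x) x) x := by
    rw [hasDerivAt_iff_tendsto_slope]
    exact (hasDerivWithinAt_iff_tendsto_slope' (by simp)).1 hU
  exact this.differentiableAt

theorem DFF : DFF_stmt := by
  intro f hf
  have hg : ConvexOn ℝ (Ioi 0) (fun y => - f y) := hf.concaveOn.neg
  have hmono : MonotoneOn (fun x ↦ derivWithin (fun y => - f y) (Ioi x) x) (Ioi (0 : ℝ)) := by
    have := hg.monotoneOn_rightDeriv
    rwa [interior_Ioi] at this
  refine ⟨_, hmono.countable_not_continuousWithinAt, ?_, ?_⟩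
  · intro v hv hn
    have hc : ContinuousWithinAt (fun y => derivWithin (fun y => - f y) (Ioi y) y) (Ioi 0) v := by
      by_contra hcon
      exact hn ⟨hv, hcon⟩
    have := (DFF_conv _ hg v hv hc).neg
    simpa using this
  · have hd : ∀ v, 0 < v → v ∉ {x : ℝ | x ∈ Ioi (0 : ℝ) ∧
        ¬ContinuousWithinAt (fun x ↦ derivWithin (fun y => - f y) (Ioi x) x) (Ioi 0) x} → DifferentiableAt ℝ f v := by
      intro v hv hn
      have hc : ContinuousWithinAt (fun y => derivWithin (fun y => - f y) (Ioi y) y) (Ioi 0) v := by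
        by_contra hcon
        exact hn ⟨hv, hcon⟩
      have := (DFF_conv _ hg v hv hc).neg
      simpa using this
    intro v hv w hw hvw
    exact (hf.deriv_lt_slope (mem_Ioi.2 hv.1) (mem_Ioi.2 hw.1) hvw (hd w hw.1 hw.2)).trans
      (hf.slope_lt_deriv (mem_Ioi.2 hv.1) (mem_Ioi.2 hw.1) hvw (hd v hv.1 hv.2))

end Pool.Agent.MLG
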