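import Pool.Agent.helper17.MLG.Spec

/-!
# MP_84f457_gt, project mlg: row ITR
-/

set_option autoImplicit false

namespace Pool.Agent.MLG

open MeasureTheory Set Filter Topology Module
open scoped ENNReal ContDiff

theorem ITR : ITR_stmt := by
  intro n κ C C' L r₀ hn hκ hC hC' hL hr₀
  have h8 : (0 : ℝ) < (1 / 8) ^ n := by positivity
  obtain ⟨θ, hθ0, hθ1, hθ2⟩ : ∃ θ : ℝ, 0 < θ ∧ θ ≤ 1 ∧ 16 * C * C' * θ ≤ (1 / 8) ^ n := by
    refine ⟨min 1 ((1 / 8) ^ n / (16 * C * C')), lt_min one_pos (by positivity), min_le_left _ _, ?_⟩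
    have h1 : min 1 ((1 / 8) ^ n / (16 * C * C')) ≤ (1 / 8) ^ n / (16 * C * C') := min_le_right _ _
    have h2 : (0 : ℝ) < 16 * C * C' := by positivity
    rw [le_div_iff₀ h2] at h1
    linarith
  have hCL : 0 ≤ C * L := by positivity
  refine ⟨κ * θ ^ n, min r₀ (1 / (2 * (C * L) + 1)), by positivity, lt_min hr₀ (by positivity), min_le_left _ _, ?_⟩
  intro r m hr hr1 hm H hmr
  have hrr₀ : r ≤ r₀ := hr1.trans (min_le_left _ _)
  have hrC : C * L * r ≤ 1 / 2 := by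
    have h1 : r ≤ 1 / (2 * (C * L) + 1) := hr1.trans (min_le_right _ _)
    have h2 : (0 : ℝ) < 2 * (C * L) + 1 := by positivity
    rw [le_div_iff₀ h2] at h1
    nlinarith
  have hpow : ∀ k : ℕ, (0 : ℝ) < (1 / 8) ^ k ∧ ((1 : ℝ) / 8) ^ k ≤ 1 := by
    intro k
    exact ⟨by positivity, pow_le_one₀ (by norm_num) (by norm_num)⟩
  have hmain : ∀ k : ℕ, m (r / 2 + r / 2 * (1 / 2) ^ k) ≤ κ * (θ * (1 / 8) ^ k * r) ^ n := by
    intro k
    induction k with
    | zero =>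
      have e : r / 2 + r / 2 * (1 / 2) ^ 0 = r := by ring
      rw [e]
      refine hmr.trans (le_of_eq ?_)
      rw [pow_zero, mul_one, mul_pow, mul_assoc]
    | succ k ih =>
      have hk : (0 : ℝ) < (1 / 2) ^ k := by positivity
      have hk1 : ((1 : ℝ) / 2) ^ k ≤ 1 := pow_le_one₀ (by norm_num) (by norm_num)
      obtain ⟨s, hs1, hs2, hs3⟩ := H (r / 2 + r / 2 * (1 / 2) ^ (k + 1)) (r / 2 + r / 2 * (1 / 2) ^ k)
        (by positivity)
        (by rw [pow_succ]; nlinarith [mul_pos hr hk])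
        (by nlinarith [mul_pos hr hk])
      have hσ0 : 0 < θ * (1 / 8) ^ k * r := by positivity
      have hθk : θ * (1 / 8) ^ k ≤ 1 := by
        calc θ * (1 / 8) ^ k ≤ 1 * 1 := mul_le_mul hθ1 (hpow k).2 (hpow k).1.le zero_le_one
          _ = 1 := one_mul 1
      have hσ1 : θ * (1 / 8) ^ k * r ≤ r := by
        calc θ * (1 / 8) ^ k * r ≤ 1 * r := mul_le_mul_of_nonneg_right hθk hr.le
          _ = r := one_mul r
      have h4 := hs3 (θ * (1 / 8) ^ k * r) hσ0 (hσ1.trans hrr₀) (hs2.trans ih)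
      have hs0 : 0 ≤ s := (hm _).trans hs1
      have e1 : (r / 2 + r / 2 * (1 / 2) ^ k) - (r / 2 + r / 2 * (1 / 2) ^ (k + 1)) = r * (1 / 2) ^ k / 4 := by
        rw [pow_succ]; ring
      rw [e1] at h4
      set M := m (r / 2 + r / 2 * (1 / 2) ^ k) with hM
      have hM0 : 0 ≤ M := hm _
      have e2 : C * (θ * (1 / 8) ^ k * r) * (L * s + 2 * C' * M / (r * (1 / 2) ^ k / 4)) =
          (C * L * r) * (θ * (1 / 8) ^ k) * s + 8 * C * C' * θ * ((1 / 8) ^ k / (1 / 2) ^ k) * M := by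
        field_simp
        ring
      rw [e2] at h4
      have h5 : (C * L * r) * (θ * (1 / 8) ^ k) * s ≤ 1 / 2 * s := by
        have h51 : (C * L * r) * (θ * (1 / 8) ^ k) ≤ 1 / 2 * 1 :=
          mul_le_mul hrC hθk (by positivity) (by norm_num)
        calc (C * L * r) * (θ * (1 / 8) ^ k) * s ≤ (1 / 2 * 1) * s := mul_le_mul_of_nonneg_right h51 hs0
          _ = 1 / 2 * s := by ring
      have h6 : ((1 : ℝ) / 8) ^ k / (1 / 2) ^ k ≤ 1 := by
        rw [← div_pow]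
        exact pow_le_one₀ (by norm_num) (by norm_num)
      have h7 : 8 * C * C' * θ * ((1 / 8) ^ k / (1 / 2) ^ k) * M ≤ 1 / 2 * (1 / 8) ^ n * M := by
        refine mul_le_mul_of_nonneg_right ?_ hM0
        have h71 : 8 * C * C' * θ * ((1 / 8) ^ k / (1 / 2) ^ k) ≤ 8 * C * C' * θ * 1 :=
          mul_le_mul_of_nonneg_left h6 (by positivity)
        linarith
      have h8' : s ≤ (1 / 8) ^ n * M := by linarith
      calc m (r / 2 + r / 2 * (1 / 2) ^ (k + 1)) ≤ s := hs1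
        _ ≤ (1 / 8) ^ n * M := h8'
        _ ≤ (1 / 8) ^ n * (κ * (θ * (1 / 8) ^ k * r) ^ n) := mul_le_mul_of_nonneg_left ih h8.le
        _ = κ * (θ * (1 / 8) ^ (k + 1) * r) ^ n := by
          have : θ * (1 / 8) ^ (k + 1) * r = (1 / 8) * (θ * (1 / 8) ^ k * r) := by
            rw [pow_succ]; ring
          rw [this, mul_pow (1 / 8 : ℝ)]
          ring
  have hle : ∀ k : ℕ, m (r / 2) ≤ κ * (θ * r) ^ n * ((1 / 8) ^ n) ^ k := by
    intro k
    have hk : (0 : ℝ) < (1 / 2) ^ k := by positivity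
    have hk1 : ((1 : ℝ) / 2) ^ k ≤ 1 := pow_le_one₀ (by norm_num) (by norm_num)
    obtain ⟨s, hs1, hs2, -⟩ := H (r / 2) (r / 2 + r / 2 * (1 / 2) ^ k) (by positivity)
      (by nlinarith [mul_pos hr hk]) (by nlinarith [mul_pos hr hk])
    refine (hs1.trans hs2).trans ((hmain k).trans (le_of_eq ?_))
    have : θ * (1 / 8) ^ k * r = (θ * r) * (1 / 8) ^ k := by ring
    rw [this, mul_pow, ← pow_mul, ← pow_mul, mul_comm k n, mul_assoc]
  have hlim : Tendsto (fun k : ℕ => κ * (θ * r) ^ n * (((1 : ℝ) / 8) ^ n) ^ k) atTop (𝓝 (κ * (θ * r) ^ n * 0)) := by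
    refine Tendsto.const_mul _ (tendsto_pow_atTop_nhds_zero_of_lt_one h8.le ?_)
    exact pow_lt_one₀ (by norm_num) (by norm_num) (by omega)
  rw [mul_zero] at hlim
  exact le_antisymm (ge_of_tendsto' hlim hle) (hm _)

end Pool.Agent.MLG
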